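import Pool.Agent.Helper427.Chern.Main
import Pool.Agent.Helper427.Chern.Conn

namespace Pool.Agent.Results.MP_e6758a_gt.NegativeGenusTwo

open ChernG2

/-- **Chern's question, positive answer.** There is a compact connected smooth embedded surface
in Euclidean four-space, homeomorphic to the closed orientable surface of genus two, whose induced
metric has strictly negative Gaussian curvature at every point. -/
theorem result :
    ∃ M : Set E4, IsCompact M ∧ IsConnected M ∧ IsSmoothSurface M ∧ IsGenusTwo M ∧
      ∀ (U : Set (ℝ × ℝ)) (ψ : ℝ × ℝ → E4), IsPatch M U ψ → ∀ w ∈ U, gaussK ψ w < 0 := by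
  refine ⟨MM, isCompact_MM, isConnected_MM, isSmoothSurface_MM, ?_, ?_⟩
  · obtain ⟨g, h1, h2, h3, h4⟩ := disc
    refine ⟨fun x => 1 / 1000000 - height x, g, ?_, h1, h2, ?_, ?_, homeo_MM⟩
    · exact continuous_const.sub continuous_height
    · rw [h3]
      ext x
      simp only [Set.mem_ofPred_eq, sub_nonpos]
    · rw [h4]
      ext x
      simp only [Set.mem_ofPred_eq, sub_neg]
  · intro U ψ h w hw
    exact neg_curvature h hw

end Pool.Agent.Results.MP_e6758a_gt.NegativeGenusTwo
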